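import Pool.Agent.H96.AL.Targets1

open Topology Set Filter Real

namespace Pool.Agent.H35.AL

open Pool.Agent.H96.AL

variable {X : Type} [MetricSpace X]

theorem seg_congr {g : X → ℝ} {L ε : ℝ} {α β : ℝ → X} {r r' : ℝ} {z : X} {a : ℝ}
    (h : Seg g L ε α r r' z a) (hr : r ≤ r') (e : ∀ s ∈ Icc r r', β s = α s) :
    Seg g L ε β r r' z a where
  near := by rw [e r ⟨le_rfl, hr⟩]; exact h.near
  nonneg := h.nonneg
  le := h.le
  speed := by
    intro s hs t ht
    rw [e s hs, e t ht]; exact h.speed s hs t ht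
  evi := by
    intro y θ hθ s t h1 h2 h3
    rw [e s ⟨h1, h2.trans h3⟩, e t ⟨h1.trans h2, h3⟩]; exact h.evi y θ hθ s t h1 h2 h3
  en := by
    intro s t h1 h2 h3
    rw [e s ⟨h1, h2.trans h3⟩, e t ⟨h1.trans h2, h3⟩]; exact h.en s t h1 h2 h3
  sl := h.sl

/-- partial approximate gradient curves -/
structure Part (g : X → ℝ) (L ε T : ℝ) (x : X) where
  t : ℝ
  c : ℝ → X
  t0 : 0 ≤ t
  tT : t ≤ T
  c0 : c 0 = x
  fl : AFlow g L ε c t

/-- extension order -/
def Ext {g : X → ℝ} {L ε T : ℝ} {x : X} (p q : Part g L ε T x) : Prop :=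
  p.t ≤ q.t ∧ ∀ s ∈ Icc 0 p.t, q.c s = p.c s

theorem ext_trans {g : X → ℝ} {L ε T : ℝ} {x : X} {p q r : Part g L ε T x} (h1 : Ext p q)
    (h2 : Ext q r) : Ext p r :=
  ⟨h1.1.trans h2.1, fun s hs => (h2.2 s ⟨hs.1, hs.2.trans h1.1⟩).trans (h1.2 s hs)⟩

theorem chain_ub [CompactSpace X] {g : X → ℝ} {L ε T : ℝ} {x : X} (hL : 0 ≤ L) (hT : 0 ≤ T)
    (c : Set (Part g L ε T x)) (hc : IsChain Ext c) : ∃ ub : Part g L ε T x, ∀ a ∈ c, Ext a ub := by
  classical
  rcases c.eq_empty_or_nonempty with rfl | hne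
  · refine ⟨⟨0, fun _ => x, le_rfl, hT, rfl, ⟨?_, ?_⟩⟩, by simp⟩
    · intro s _ t _
      rw [dist_self]; positivity
    · intro r hr
      exact absurd hr.1 (not_le.2 hr.2)
  · -- comparison inside the chain
    have hcmp : ∀ p ∈ c, ∀ q ∈ c, ∀ s, 0 ≤ s → s ≤ p.t → s ≤ q.t → p.c s = q.c s := by
      intro p hp q hq s hs h1 h2
      by_cases hpq : p = q
      · rw [hpq]
      · rcases hc hp hq hpq with h | h
        · exact (h.2 s ⟨hs, h1⟩).symm
        · exact h.2 s ⟨hs, h2⟩
    by_cases hatt : ∃ p ∈ c, ∀ q ∈ c, q.t ≤ p.t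
    · obtain ⟨p, hp, hmax⟩ := hatt
      exact ⟨p, fun q hq => ⟨hmax q hq, fun s hs =>
        hcmp p hp q hq s hs.1 (hs.2.trans (hmax q hq)) hs.2⟩⟩
    · push Not at hatt
      set S : Set ℝ := (fun p : Part g L ε T x => p.t) '' c with hS
      have hSne : S.Nonempty := hne.image _
      have hSb : BddAbove S := ⟨T, by rintro _ ⟨p, _, rfl⟩; exact p.tT⟩
      set τ : ℝ := sSup S with hτ
      have hlt : ∀ p ∈ c, p.t < τ := by
        intro p hp
        obtain ⟨q, hq, h⟩ := hatt p hp
        exact lt_of_lt_of_le h (le_csSup hSb ⟨q, hq, rfl⟩)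
      have hτT : τ ≤ T := csSup_le hSne (by rintro _ ⟨p, _, rfl⟩; exact p.tT)
      have hτ0 : 0 < τ := by
        obtain ⟨p, hp⟩ := hne
        exact lt_of_le_of_lt p.t0 (hlt p hp)
      have hex : ∀ s, s < τ → ∃ p ∈ c, s < p.t := by
        intro s hs
        obtain ⟨_, ⟨p, hp, rfl⟩, h⟩ := exists_lt_of_lt_csSup hSne hs
        exact ⟨p, hp, h⟩
      have hnep : Nonempty (Part g L ε T x) := ⟨hne.some⟩
      choose! P hPc hPt using hex
      let b : ℝ → X := fun s => (P s).c s
      have hb : ∀ p ∈ c, ∀ s, 0 ≤ s → s ≤ p.t → b s = p.c s := by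
        intro p hp s hs hsp
        have hsτ : s < τ := lt_of_le_of_lt hsp (hlt p hp)
        exact hcmp (P s) (hPc s hsτ) p hp s hs (hPt s hsτ).le hsp
      have hblip : ∀ s t, 0 ≤ s → s < τ → 0 ≤ t → t < τ → dist (b s) (b t) ≤ L * |s - t| := by
        intro s t hs hsτ ht htτ
        have hm : max s t < τ := max_lt hsτ htτ
        have h1 := hPt _ hm
        have hp := hPc _ hm
        rw [hb _ hp s hs ((le_max_left s t).trans h1.le), hb _ hp t ht ((le_max_right s t).trans h1.le)]
        exact (P (max s t)).fl.lip s ⟨hs, (le_max_left s t).trans h1.le⟩ t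
          ⟨ht, (le_max_right s t).trans h1.le⟩
      -- the limit point
      let u : ℕ → ℝ := fun n => τ - τ / (n + 1)
      have hu0 : ∀ n, 0 ≤ u n := by
        intro n
        show 0 ≤ τ - τ / (n + 1)
        have : τ / ((n : ℝ) + 1) ≤ τ := div_le_self hτ0.le (by
          have : (0 : ℝ) ≤ n := Nat.cast_nonneg n
          linarith)
        linarith
      have huτ : ∀ n, u n < τ := by
        intro n
        show τ - τ / (n + 1) < τ
        have : 0 < τ / ((n : ℝ) + 1) := by positivity
        linarith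
      have hulim : Tendsto u atTop (𝓝 τ) := by
        have h1 : Tendsto (fun n : ℕ => τ / ((n : ℝ) + 1)) atTop (𝓝 0) :=
          tendsto_const_div_atTop_nhds_zero_nat τ |>.comp (tendsto_add_atTop_nat 1) |>.congr
            (fun n => by simp)
        have h2 := h1.const_sub τ
        simpa using h2
      obtain ⟨y, φ, hφ, hy⟩ := CompactSpace.tendsto_subseq (fun n => b (u n))
      have hylip : ∀ s, 0 ≤ s → s < τ → dist (b s) y ≤ L * |s - τ| := by
        intro s hs hsτ
        have h1 : Tendsto (fun n => dist (b s) (b (u (φ n)))) atTop (𝓝 (dist (b s) y)) :=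
          tendsto_const_nhds.dist hy
        have h2 : Tendsto (fun n => L * |s - u (φ n)|) atTop (𝓝 (L * |s - τ|)) := by
          have := hulim.comp hφ.tendsto_atTop
          exact ((tendsto_const_nhds.sub this).abs).const_mul L
        exact le_of_tendsto_of_tendsto' h1 h2 (fun n => hblip s _ hs hsτ (hu0 _) (huτ _))
      let b' : ℝ → X := fun s => if s < τ then b s else y
      have hb' : ∀ s, s < τ → b' s = b s := fun s hs => if_pos hs
      have hb'' : ∀ s, ¬ s < τ → b' s = y := fun s hs => if_neg hs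
      refine ⟨⟨τ, b', hτ0.le, hτT, ?_, ⟨?_, ?_⟩⟩, ?_⟩
      · rw [hb' 0 hτ0]
        obtain ⟨p, hp⟩ := hne
        rw [hb p hp 0 le_rfl p.t0, p.c0]
      · intro s hs t ht
        by_cases h1 : s < τ
        · by_cases h2 : t < τ
          · rw [hb' s h1, hb' t h2]; exact hblip s t hs.1 h1 ht.1 h2
          · have : t = τ := le_antisymm ht.2 (not_lt.1 h2)
            rw [hb' s h1, hb'' t h2, this]; exact hylip s hs.1 h1
        · have hsτ : s = τ := le_antisymm hs.2 (not_lt.1 h1)
          by_cases h2 : t < τ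
          · rw [hb'' s h1, hb' t h2, hsτ, dist_comm, abs_sub_comm]; exact hylip t ht.1 h2
          · rw [hb'' s h1, hb'' t h2, dist_self]; positivity
      · intro r hr
        have hp := hPc r hr.2
        have h1 := hPt r hr.2
        obtain ⟨r', z, a, hrr', hr'T, hseg⟩ := (P r).fl.piece r ⟨hr.1, h1⟩
        refine ⟨r', z, a, hrr', hr'T.trans (hlt _ hp).le, seg_congr hseg hrr'.le ?_⟩
        intro s hs
        have hs' : s ≤ (P r).t := hs.2.trans hr'T
        rw [hb' s (lt_of_le_of_lt hs' (hlt _ hp))]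
        exact hb _ hp s (hr.1.trans hs.1) hs'
      · intro p hp
        refine ⟨(hlt p hp).le, fun s hs => ?_⟩
        show b' s = p.c s
        rw [hb' s (lt_of_le_of_lt hs.2 (hlt p hp))]
        exact hb p hp s hs.1 hs.2

theorem af (hSG : T_SG) : T_AF := by
  intro X _ D hX g L Λ hL hΛ hLip hSC x ε T hε hT
  classical
  have := hX.compact
  obtain ⟨m, hm⟩ := exists_maximal_of_chains_bounded (r := @Ext X _ g L ε T x)
    (fun c hc => chain_ub hL hT c hc) (fun h1 h2 => ext_trans h1 h2)
  suffices hmt : m.t = T by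
    refine ⟨m.c, m.c0, ?_⟩
    have := m.fl
    rwa [hmt] at this
  by_contra hne
  have hlt : m.t < T := lt_of_le_of_ne m.tT hne
  have hε0 : 0 < ε / (L + 1) := by positivity
  have hε0le : ε / (L + 1) ≤ ε := div_le_self hε.le (by linarith)
  obtain ⟨a, Δ, β, ha0, haL, hΔ0, hΔε, hβ0, hsp, hevi, hen, hsl⟩ :=
    hSG X D hX g L Λ hL hΛ hLip hSC (m.c m.t) (ε / (L + 1)) hε0
  set δ : ℝ := min Δ (T - m.t) with hδ
  have hδ0 : 0 < δ := lt_min hΔ0 (by linarith)
  have hδΔ : δ ≤ Δ := min_le_left _ _
  have hδT : m.t + δ ≤ T := by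
    have : δ ≤ T - m.t := min_le_right _ _
    linarith
  let γ : ℝ → X := fun s => if s ≤ m.t then m.c s else β (s - m.t)
  have hγ1 : ∀ s, s ≤ m.t → γ s = m.c s := fun s hs => if_pos hs
  have hγ2 : ∀ s, m.t ≤ s → γ s = β (s - m.t) := by
    intro s hs
    rcases eq_or_lt_of_le hs with h | h
    · rw [← h, hγ1 _ le_rfl, sub_self, hβ0]
    · exact if_neg (not_le.2 h)
  have hspγ : ∀ s ∈ Icc m.t (m.t + δ), ∀ t ∈ Icc m.t (m.t + δ), dist (γ s) (γ t) = a * |s - t| := by
    intro s hs t ht
    rw [hγ2 s hs.1, hγ2 t ht.1, hsp _ ⟨by linarith [hs.1], by linarith [hs.2]⟩ _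
      ⟨by linarith [ht.1], by linarith [ht.2]⟩]
    congr 2; ring
  have hlip : ∀ s ∈ Icc (0 : ℝ) (m.t + δ), ∀ t ∈ Icc (0 : ℝ) (m.t + δ), s ≤ t →
      dist (γ s) (γ t) ≤ L * |s - t| := by
    intro s hs t ht hst
    rcases le_total t m.t with h | h
    · rw [hγ1 s (hst.trans h), hγ1 t h]
      exact m.fl.lip s ⟨hs.1, hst.trans h⟩ t ⟨ht.1, h⟩
    · rcases le_total m.t s with h' | h'
      · rw [hspγ s ⟨h', hs.2⟩ t ⟨h, ht.2⟩]
        exact mul_le_mul_of_nonneg_right haL (abs_nonneg _)
      · have d1 : dist (γ s) (γ m.t) ≤ L * (m.t - s) := by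
          rw [hγ1 s h', hγ1 m.t le_rfl]
          have := m.fl.lip s ⟨hs.1, h'⟩ m.t ⟨m.t0, le_rfl⟩
          rwa [abs_sub_comm, abs_of_nonneg (by linarith : 0 ≤ m.t - s)] at this
        have d2 : dist (γ m.t) (γ t) ≤ L * (t - m.t) := by
          rw [hspγ m.t ⟨le_rfl, by linarith⟩ t ⟨h, ht.2⟩, abs_sub_comm,
            abs_of_nonneg (by linarith : 0 ≤ t - m.t)]
          exact mul_le_mul_of_nonneg_right haL (by linarith)
        have d3 := dist_triangle (γ s) (γ m.t) (γ t)
        rw [abs_sub_comm, abs_of_nonneg (by linarith : 0 ≤ t - s)]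
        have e : L * (t - s) = L * (m.t - s) + L * (t - m.t) := by ring
        linarith
  let q : Part g L ε T x :=
    { t := m.t + δ
      c := γ
      t0 := by have := m.t0; linarith
      tT := hδT
      c0 := by rw [hγ1 0 m.t0, m.c0]
      fl := by
        refine ⟨?_, ?_⟩
        · intro s hs t ht
          rcases le_total s t with h | h
          · exact hlip s hs t ht h
          · rw [dist_comm, abs_sub_comm]; exact hlip t ht s hs h
        · intro r hr
          by_cases hrm : r < m.t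
          · obtain ⟨r', z, a', hrr', hr', hseg⟩ := m.fl.piece r ⟨hr.1, hrm⟩
            exact ⟨r', z, a', hrr', by linarith, seg_congr hseg hrr'.le
              (fun s hs => hγ1 s (hs.2.trans hr'))⟩
          · have hrm' : m.t ≤ r := not_lt.1 hrm
            refine ⟨m.t + δ, m.c m.t, a, hr.2, le_rfl, ?_⟩
            refine ⟨?_, ha0, haL, ?_, ?_, ?_, ?_⟩
            · have e1 : dist (m.c m.t) (γ r) = a * (r - m.t) := by
                rw [← hγ1 m.t le_rfl, hspγ m.t ⟨le_rfl, by linarith⟩ r ⟨hrm', hr.2.le⟩,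
                  abs_sub_comm, abs_of_nonneg (by linarith : 0 ≤ r - m.t)]
              rw [e1]
              have e2 : a * (r - m.t) ≤ L * (ε / (L + 1)) :=
                mul_le_mul haL (by linarith [hr.2]) (by linarith) hL
              have e3 : L * (ε / (L + 1)) ≤ (L + 1) * (ε / (L + 1)) :=
                mul_le_mul_of_nonneg_right (by linarith) hε0.le
              have e4 : (L + 1) * (ε / (L + 1)) = ε := by field_simp
              linarith
            · intro s hs t ht
              exact hspγ s ⟨hrm'.trans hs.1, hs.2⟩ t ⟨hrm'.trans ht.1, ht.2⟩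
            · intro y θ hθ s t h1 h2 h3
              have hms : m.t ≤ s := hrm'.trans h1
              rw [hγ2 s hms, hγ2 t (hms.trans h2)]
              have := hevi y θ hθ (s - m.t) (t - m.t) (by linarith) (by linarith) (by linarith)
              refine this.trans ?_
              have e1 : t - m.t - (s - m.t) = t - s := by ring
              rw [e1]
              exact mul_le_mul_of_nonneg_left (by linarith) (by linarith)
            · intro s t h1 h2 h3
              have hms : m.t ≤ s := hrm'.trans h1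
              rw [hγ2 s hms, hγ2 t (hms.trans h2)]
              have := hen (s - m.t) (t - m.t) (by linarith) (by linarith) (by linarith)
              refine le_trans ?_ this
              have e1 : t - m.t - (s - m.t) = t - s := by ring
              rw [e1]
              exact mul_le_mul_of_nonneg_right (by linarith) (by linarith)
            · intro σ hσ
              have := hsl σ hσ
              linarith }
  have hmq : Ext m q := ⟨by show m.t ≤ m.t + δ; linarith, fun s hs => hγ1 s hs.2⟩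
  have := (hm q hmq).1
  have h2 : q.t = m.t + δ := rfl
  rw [h2] at this
  linarith

end Pool.Agent.H35.AL
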