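import Pool.Agent.H96.AL.Targets3

open Topology Set Filter Real

namespace Pool.Agent.H35.AL

open Pool.Agent.H96.AL

/-- the accuracies -/
noncomputable def kap (n m : ℕ) : ℝ := 8 ^ m / (12 * (n + 3) * 8 ^ (n + 3))

theorem kap_pos (n m : ℕ) : 0 < kap n m := by unfold kap; positivity

theorem kap_succ (n m : ℕ) : kap n (m + 1) = 8 * kap n m := by
  unfold kap; rw [pow_succ]; ring

theorem kap_le {n m : ℕ} (h : m ≤ n + 1) : kap n m ≤ 1 / (12 * (m + 1)) := by
  unfold kap
  rw [div_le_div_iff₀ (by positivity) (by positivity), one_mul]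
  have h1 : (8 : ℝ) ^ m ≤ 8 ^ (n + 3) := pow_le_pow_right₀ (by norm_num) (by omega)
  have h2 : (m : ℝ) + 1 ≤ n + 3 := by
    have : (m : ℝ) ≤ n + 1 := by exact_mod_cast h
    linarith
  have h3 : (8 : ℝ) ^ m * (12 * (m + 1)) ≤ 8 ^ (n + 3) * (12 * (n + 3)) :=
    mul_le_mul h1 (by linarith) (by positivity) (by positivity)
  linarith

theorem kap_le' {n m : ℕ} (h : m ≤ n + 1) : kap n m ≤ 1 / 10 := by
  refine (kap_le h).trans ?_
  rw [div_le_div_iff₀ (by positivity) (by norm_num)]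
  have : (0 : ℝ) ≤ m := Nat.cast_nonneg m
  linarith

theorem ch (hOS : T_OS) (hNS : T_NS) (hOP : T_OP) (hDM : T_DM) : T_CH := by
  intro X _ D hX hdim hne
  have := hX.compact
  obtain ⟨n, hn⟩ := ENNReal.exists_nat_gt hdim.ne
  let P : ℕ → Prop := fun m => ∃ a b : Fin m → X, ∃ p, Strained a b (kap n m) p
  have hP0 : P 0 := by
    obtain ⟨p⟩ := hne
    exact ⟨Fin.elim0, Fin.elim0, p, fun i => Fin.elim0 i, fun i => Fin.elim0 i⟩
  have hPm : ∀ m, m ≤ n + 1 → P m → m < n := by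
    intro m hm hP
    obtain ⟨a, b, p, hp⟩ := hP
    have hO := hOS X m a b (kap n m)
    obtain ⟨ρ, hρ, hb⟩ := Metric.isOpen_iff.1 hO p hp
    have h1 := hOP X hX.geo hX.cb m a b (kap n m) {w | Strained a b (kap n m) w} (kap_pos n m)
      (kap_le hm) hO (fun w hw => hw) p (ρ / 2) (by positivity)
      ((Metric.closedBall_subset_ball (by linarith)).trans hb)
    have h2 := hDM X m a p (ρ / 2 / 4) (by positivity) (fun v hv => by
      obtain ⟨y, _, hy⟩ := h1 v hv
      exact ⟨y, hy⟩)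
    exact_mod_cast lt_of_le_of_lt h2 hn
  have hex : ∃ m, m ≤ n + 1 ∧ P m ∧ ¬ P (m + 1) := by
    by_contra hcon
    push Not at hcon
    have : ∀ m, m ≤ n + 2 → P m := by
      intro m
      induction m with
      | zero => intro _; exact hP0
      | succ k ih => intro hk; exact hcon k (by omega) (ih (by omega))
    have := hPm (n + 1) le_rfl (this (n + 1) (by omega))
    omega
  obtain ⟨m, hmn, ⟨a, b, p, hp⟩, hnot⟩ := hex
  have hO := hOS X m a b (kap n m)
  obtain ⟨ρ₁, hρ₁, hb₁⟩ := Metric.isOpen_iff.1 hO p hp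
  obtain ⟨ρ₀, hρ₀, h0⟩ := hNS X hX.geo hX.cb m a b (kap n m) {w | Strained a b (kap n m) w}
    (kap_pos n m) (kap_le' hmn) hO (fun w hw => hw) p hp
  refine ⟨m, a, p, min ρ₀ ρ₁, kap n m, lt_min hρ₀ hρ₁, kap_pos n m, ?_, ?_⟩
  · intro x hx y hy hxy
    by_contra hcon
    push Not at hcon
    obtain ⟨a', b', q, _, hq⟩ := h0 x (Metric.ball_subset_ball (min_le_left _ _) hx) y
      (Metric.ball_subset_ball (min_le_left _ _) hy) hxy (fun i => (hcon i).le)
    exact hnot ⟨a', b', q, by rw [kap_succ]; exact hq⟩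
  · intro q r hr hqr v hv
    exact hOP X hX.geo hX.cb m a b (kap n m) {w | Strained a b (kap n m) w} (kap_pos n m)
      (kap_le hmn) hO (fun w hw => hw) q r hr
      (hqr.trans ((Metric.ball_subset_ball (min_le_right _ _)).trans hb₁)) v hv

end Pool.Agent.H35.AL
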