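import Pool.Agent.H96.AL.Targets1

open Topology Set Filter Real

namespace Pool.Agent.H35.AL

open Pool.Agent.H96.AL

theorem cm_cont {X : Type} [MetricSpace X] {α : ℝ → X} {L T : ℝ}
    (h : ∀ s ∈ Icc (0 : ℝ) T, ∀ t ∈ Icc (0 : ℝ) T, dist (α s) (α t) ≤ L * |s - t|)
    (hL : 0 ≤ L) : ContinuousOn α (Icc 0 T) := by
  have : LipschitzOnWith (Real.toNNReal L) α (Icc 0 T) := by
    apply LipschitzOnWith.of_dist_le_mul
    intro x hx y hy
    rw [Real.coe_toNNReal L hL, Real.dist_eq]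
    exact h x hx y hy
  exact this.continuousOn

/-- the algebra of one step -/
theorem cm_alg {L Λ D ε δ ρ h A B : ℝ} (hL : 0 ≤ L) (hΛ : 0 ≤ Λ) (hD : 1 ≤ D) (hε : 0 < ε)
    (hε1 : ε ≤ 1) (hδ : 0 < δ) (hδ1 : δ ≤ 1) (_hρ : 0 ≤ ρ) (hρD : ρ ≤ D) (hh : 0 ≤ h)
    (hh1 : h ≤ 1) (hA0 : 0 ≤ A) (hB0 : 0 ≤ B) (hA : A ≤ ρ + ε + L * h) (hB : B ≤ ρ + δ + L * h) :
    L * (ε + L * h) + L * (δ + L * h) + Λ / 2 * (A ^ 2 + B ^ 2) + ε + δ
      ≤ Λ * ρ ^ 2 + (1 + L + 3 * Λ * D) * (ε + δ)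
        + (2 * L ^ 2 + 2 * Λ * D * L + Λ * (2 * L + L ^ 2)) * h := by
  have h1 : A ^ 2 ≤ (ρ + ε + L * h) ^ 2 := pow_le_pow_left₀ hA0 hA 2
  have h2 : B ^ 2 ≤ (ρ + δ + L * h) ^ 2 := pow_le_pow_left₀ hB0 hB 2
  have h3 : Λ / 2 * (A ^ 2 + B ^ 2) ≤ Λ / 2 * ((ρ + ε + L * h) ^ 2 + (ρ + δ + L * h) ^ 2) :=
    mul_le_mul_of_nonneg_left (add_le_add h1 h2) (by positivity)
  have hLh : 0 ≤ L * h := by positivity
  -- expand the square
  have e : Λ / 2 * ((ρ + ε + L * h) ^ 2 + (ρ + δ + L * h) ^ 2)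
      = Λ * ρ ^ 2 + Λ * (ρ * (ε + δ)) + Λ * (2 * ρ * (L * h)) + Λ / 2 * (ε ^ 2 + δ ^ 2)
        + Λ * ((ε + δ) * (L * h)) + Λ * ((L * h) * (L * h)) := by ring
  have k1 : Λ * (ρ * (ε + δ)) ≤ Λ * (D * (ε + δ)) :=
    mul_le_mul_of_nonneg_left (mul_le_mul_of_nonneg_right hρD (by linarith)) hΛ
  have k2 : Λ * (2 * ρ * (L * h)) ≤ Λ * (2 * D * (L * h)) :=
    mul_le_mul_of_nonneg_left (mul_le_mul_of_nonneg_right (by linarith) hLh) hΛ
  have k3 : Λ / 2 * (ε ^ 2 + δ ^ 2) ≤ Λ * (D * (ε + δ)) := by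
    have : ε ^ 2 + δ ^ 2 ≤ 2 * (D * (ε + δ)) := by nlinarith
    nlinarith
  have k4 : Λ * ((ε + δ) * (L * h)) ≤ Λ * (2 * (L * h)) :=
    mul_le_mul_of_nonneg_left (mul_le_mul_of_nonneg_right (by linarith) hLh) hΛ
  have k5 : Λ * ((L * h) * (L * h)) ≤ Λ * (L ^ 2 * h) := by
    apply mul_le_mul_of_nonneg_left _ hΛ
    have : (L * h) * (L * h) = L ^ 2 * h * h := by ring
    rw [this]
    have : 0 ≤ L ^ 2 * h := by positivity
    nlinarith
  have k6 : 0 ≤ Λ * (D * (ε + δ)) := by positivity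
  rw [e] at h3
  have k7 : (1 + L + 3 * Λ * D) * (ε + δ) = ε + δ + L * (ε + δ) + 3 * (Λ * (D * (ε + δ))) := by ring
  have k8 : (2 * L ^ 2 + 2 * Λ * D * L + Λ * (2 * L + L ^ 2)) * h
      = 2 * (L * (L * h)) + Λ * (2 * D * (L * h)) + Λ * (2 * (L * h)) + Λ * (L ^ 2 * h) := by ring
  have k9 : L * (ε + L * h) + L * (δ + L * h) = L * (ε + δ) + 2 * (L * (L * h)) := by ring
  linarith only [h3, k1, k2, k3, k4, k5, k6, k7, k8, k9]

theorem cm (hDS : T_DS) (hRI : T_RI) : T_CM := by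
  intro X _ D hX g L Λ hL hΛ hLip hSC α β ε δ T hε hε1 hδ hδ1 hT hα hβ t ht
  have hD := hX.one_le
  set c0 : ℝ := (1 + L + 3 * Λ * D) * (ε + δ) with hc0
  have hc0n : 0 ≤ c0 := by positivity
  set K : ℝ := (2 * L ^ 2 + 2 * Λ * D * L + Λ * (2 * L + L ^ 2)) + 4 * Λ * L * D with hK
  have hKn : 0 ≤ K := by positivity
  let F : ℝ → ℝ := fun u => dist (α u) (β u) ^ 2
  let φ : ℝ → ℝ := fun u => exp (-(2 * Λ * u)) * (F u / 2)
  have hαc := cm_cont hα.lip hL
  have hβc := cm_cont hβ.lip hL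
  have hsub : Icc (0 : ℝ) t ⊆ Icc 0 T := Icc_subset_Icc le_rfl ht.2
  have hφc : ContinuousOn φ (Icc 0 t) := by
    apply ContinuousOn.mul
    · exact Continuous.continuousOn (by fun_prop)
    · apply ContinuousOn.div_const
      apply ContinuousOn.pow
      exact continuous_dist.comp_continuousOn ((hαc.mono hsub).prodMk (hβc.mono hsub))
  have key : ∀ r ∈ Ico (0 : ℝ) t, ∀ η > 0, ∃ r' > r, ∀ s u : ℝ, r ≤ s → s ≤ u → u ≤ r' → u ≤ t →
      φ u - φ s ≤ (u - s) * ((fun _ => c0) r + η) := by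
    intro r hr η hη
    have hrT : r ∈ Ico (0 : ℝ) T := ⟨hr.1, lt_of_lt_of_le hr.2 ht.2⟩
    obtain ⟨r1, z, a, hr1, hr1T, hS⟩ := hα.piece r hrT
    obtain ⟨r1', z', a', hr1', hr1T', hS'⟩ := hβ.piece r hrT
    set h0 : ℝ := min 1 (η / (K + 1)) with hh0
    have hh0p : 0 < h0 := lt_min one_pos (by positivity)
    refine ⟨min (min r1 r1') (r + h0), lt_min (lt_min hr1 hr1') (by linarith), ?_⟩
    intro s u hrs hsu hu hut
    have hu1 : u ≤ r1 := hu.trans ((min_le_left _ _).trans (min_le_left _ _))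
    have hu1' : u ≤ r1' := hu.trans ((min_le_left _ _).trans (min_le_right _ _))
    have hu2 : u ≤ r + h0 := hu.trans (min_le_right _ _)
    set h : ℝ := u - r with hh
    have hh0' : 0 ≤ h := by linarith
    have hhh0 : h ≤ h0 := by linarith
    have hh1 : h ≤ 1 := hhh0.trans (min_le_left _ _)
    have hKh : K * h ≤ η := by
      have h1 : h ≤ η / (K + 1) := hhh0.trans (min_le_right _ _)
      have h2 : K * h ≤ (K + 1) * h := by
        have : (K + 1) * h = K * h + h := by ring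
        linarith only [this, hh0']
      have h3 : (K + 1) * h ≤ (K + 1) * (η / (K + 1)) := mul_le_mul_of_nonneg_left h1 (by linarith)
      have h4 : (K + 1) * (η / (K + 1)) = η := by field_simp
      linarith
    -- membership
    have mr : r ∈ Icc (0 : ℝ) T := ⟨hr.1, hrT.2.le⟩
    have ms : s ∈ Icc (0 : ℝ) T := ⟨hr.1.trans hrs, hsu.trans (hut.trans ht.2)⟩
    have mu : u ∈ Icc (0 : ℝ) T := ⟨ms.1.trans hsu, hut.trans ht.2⟩
    set ρ : ℝ := dist (α r) (β r) with hρ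
    have hρ0 : 0 ≤ ρ := dist_nonneg
    have hρD : ρ ≤ D := hX.diam _ _
    have dαs : dist (α r) (α s) ≤ L * h := by
      have := hα.lip r mr s ms
      rw [abs_sub_comm, abs_of_nonneg (by linarith : 0 ≤ s - r)] at this
      have : L * (s - r) ≤ L * h := mul_le_mul_of_nonneg_left (by linarith) hL
      linarith
    have dβs : dist (β r) (β s) ≤ L * h := by
      have := hβ.lip r mr s ms
      rw [abs_sub_comm, abs_of_nonneg (by linarith : 0 ≤ s - r)] at this
      have : L * (s - r) ≤ L * h := mul_le_mul_of_nonneg_left (by linarith) hL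
      linarith
    have dβu : dist (β r) (β u) ≤ L * h := by
      have := hβ.lip r mr u mu
      rw [abs_sub_comm, abs_of_nonneg (by linarith : 0 ≤ u - r)] at this
      linarith
    have hz := hS.near
    have hz' := hS'.near
    -- the two increments
    have i1 := hS.evi (β u) _ (hDS X Λ g hSC z (β u)) s u hrs hsu hu1
    have i2 := hS'.evi (α s) _ (hDS X Λ g hSC z' (α s)) s u hrs hsu hu1'
    rw [dist_comm (β u) (α s), dist_comm (β s) (α s)] at i2
    have A : dist z (β u) ≤ ρ + ε + L * h := by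
      have := dist_triangle z (α r) (β u)
      have := dist_triangle (α r) (β r) (β u)
      linarith
    have B : dist z' (α s) ≤ ρ + δ + L * h := by
      have := dist_triangle z' (β r) (α s)
      have := dist_triangle (β r) (α r) (α s)
      rw [dist_comm (β r) (α r)] at this
      linarith
    have alg := cm_alg (L := L) (Λ := Λ) hL hΛ hD hε hε1 hδ hδ1 hρ0 hρD hh0' hh1
      (dist_nonneg (x := z) (y := β u)) (dist_nonneg (x := z') (y := α s)) A B
    have g1 : g z - g (α s) ≤ L * (ε + L * h) := by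
      have h1 := le_trans (le_abs_self _) (hLip z (α s))
      have h2 := dist_triangle z (α r) (α s)
      have h3 : L * dist z (α s) ≤ L * (ε + L * h) := mul_le_mul_of_nonneg_left (by linarith) hL
      linarith
    have g2 : g z' - g (β u) ≤ L * (δ + L * h) := by
      have h1 := le_trans (le_abs_self _) (hLip z' (β u))
      have h2 := dist_triangle z' (β r) (β u)
      have h3 : L * dist z' (β u) ≤ L * (δ + L * h) := mul_le_mul_of_nonneg_left (by linarith) hL
      linarith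
    have hus : 0 ≤ u - s := by linarith
    have inc : (F u - F s) / 2 ≤ (u - s) * (Λ * ρ ^ 2 + c0
        + (2 * L ^ 2 + 2 * Λ * D * L + Λ * (2 * L + L ^ 2)) * h) := by
      have e1 : (F u - F s) / 2 ≤ (u - s) * ((-(g (β u) - g z - Λ / 2 * dist z (β u) ^ 2) + ε)
          + (-(g (α s) - g z' - Λ / 2 * dist z' (α s) ^ 2) + δ)) := by
        show (dist (α u) (β u) ^ 2 - dist (α s) (β s) ^ 2) / 2 ≤ _
        rw [mul_add]
        linarith
      refine e1.trans (mul_le_mul_of_nonneg_left ?_ hus)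
      rw [hc0]
      linarith
    -- lower bound of F s
    have Fs : ρ ^ 2 - 4 * L * h * D ≤ F s := by
      have d1 : ρ - 2 * (L * h) ≤ dist (α s) (β s) := by
        have h1 := dist_triangle (α r) (α s) (β r)
        have h2 := dist_triangle (α s) (β s) (β r)
        rw [dist_comm (β s) (β r)] at h2
        linarith
      have hLh : 0 ≤ L * h := by positivity
      have h5 : ρ * (L * h) ≤ D * (L * h) := mul_le_mul_of_nonneg_right hρD hLh
      show _ ≤ dist (α s) (β s) ^ 2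
      rcases le_total 0 (ρ - 2 * (L * h)) with h6 | h6
      · have h8 := pow_le_pow_left₀ h6 d1 2
        have e8 : (ρ - 2 * (L * h)) ^ 2 = ρ ^ 2 - 4 * (ρ * (L * h)) + 4 * (L * h) ^ 2 := by ring
        have e9 : 4 * L * h * D = 4 * (D * (L * h)) := by ring
        have h9 := sq_nonneg (L * h)
        linarith only [h8, e8, e9, h9, h5]
      · have h7 : 0 ≤ dist (α s) (β s) ^ 2 := sq_nonneg _
        have h8 : ρ * ρ ≤ (2 * (L * h)) * ρ := mul_le_mul_of_nonneg_right (by linarith only [h6]) hρ0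
        have e8 : (2 * (L * h)) * ρ = 2 * (ρ * (L * h)) := by ring
        have e9 : 4 * L * h * D = 4 * (D * (L * h)) := by ring
        have e10 : ρ ^ 2 = ρ * ρ := by ring
        have h9 : 0 ≤ ρ * (L * h) := mul_nonneg hρ0 hLh
        linarith only [h7, h8, e8, e9, e10, h9, h5]
    have hex : exp (-(2 * Λ * u)) * (1 + 2 * Λ * (u - s)) ≤ exp (-(2 * Λ * s)) := by
      have h1 : 1 + 2 * Λ * (u - s) ≤ exp (2 * Λ * (u - s)) := by
        have := add_one_le_exp (2 * Λ * (u - s)); linarith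
      have h2 : exp (-(2 * Λ * u)) * exp (2 * Λ * (u - s)) = exp (-(2 * Λ * s)) := by
        rw [← exp_add]; congr 1; ring
      rw [← h2]
      exact mul_le_mul_of_nonneg_left h1 (exp_pos _).le
    have hE0 : 0 < exp (-(2 * Λ * u)) := exp_pos _
    have hE1 : exp (-(2 * Λ * u)) ≤ 1 := by
      rw [exp_le_one_iff]
      have : 0 ≤ 2 * Λ * u := by have := mu.1; positivity
      linarith
    have Fs0 : 0 ≤ F s := sq_nonneg _
    show exp (-(2 * Λ * u)) * (F u / 2) - exp (-(2 * Λ * s)) * (F s / 2) ≤ (u - s) * (c0 + η)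
    have s1 : exp (-(2 * Λ * u)) * (F u / 2) - exp (-(2 * Λ * s)) * (F s / 2)
        ≤ exp (-(2 * Λ * u)) * ((F u - F s) / 2 - Λ * (u - s) * F s) := by
      have h1 := mul_le_mul_of_nonneg_right hex (by linarith only [Fs0] : 0 ≤ F s / 2)
      have h2 : exp (-(2 * Λ * u)) * ((F u - F s) / 2 - Λ * (u - s) * F s)
          = exp (-(2 * Λ * u)) * (F u / 2)
            - exp (-(2 * Λ * u)) * (1 + 2 * Λ * (u - s)) * (F s / 2) := by ring
      linarith only [h1, h2]
    have s2 : (F u - F s) / 2 - Λ * (u - s) * F s ≤ (u - s) * (c0 + η) := by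
      have h1 : Λ * (u - s) * (ρ ^ 2 - 4 * L * h * D) ≤ Λ * (u - s) * F s :=
        mul_le_mul_of_nonneg_left Fs (by positivity)
      have h2 : (u - s) * (c0 + K * h) ≤ (u - s) * (c0 + η) :=
        mul_le_mul_of_nonneg_left (by linarith) hus
      have h3 : (u - s) * (Λ * ρ ^ 2 + c0
        + (2 * L ^ 2 + 2 * Λ * D * L + Λ * (2 * L + L ^ 2)) * h)
          - Λ * (u - s) * (ρ ^ 2 - 4 * L * h * D) = (u - s) * (c0 + K * h) := by
        rw [hK]; ring
      linarith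
    have s3 : 0 ≤ (u - s) * (c0 + η) := by positivity
    calc _ ≤ _ := s1
      _ ≤ exp (-(2 * Λ * u)) * ((u - s) * (c0 + η)) := mul_le_mul_of_nonneg_left s2 hE0.le
      _ ≤ 1 * ((u - s) * (c0 + η)) := mul_le_mul_of_nonneg_right hE1 s3
      _ = _ := one_mul _
  have fin := hRI φ (fun _ => c0) 0 t ht.1 hφc continuousOn_const key
  rw [intervalIntegral.integral_const, smul_eq_mul] at fin
  have e0 : φ 0 = F 0 / 2 := by
    show exp (-(2 * Λ * 0)) * (F 0 / 2) = _
    simp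
  have e1 : exp (2 * Λ * t) * φ t = F t / 2 := by
    show exp (2 * Λ * t) * (exp (-(2 * Λ * t)) * (F t / 2)) = _
    rw [← mul_assoc, ← exp_add]; simp
  rw [e0] at fin
  have h1 : exp (2 * Λ * t) * φ t ≤ exp (2 * Λ * t) * (F 0 / 2 + c0 * t) :=
    mul_le_mul_of_nonneg_left (by linarith) (exp_pos _).le
  rw [e1] at h1
  have e2 : exp (2 * Λ * t) * (dist (α 0) (β 0) ^ 2 + 2 * (1 + L + 3 * Λ * D) * (ε + δ) * t)
      = 2 * (exp (2 * Λ * t) * (F 0 / 2 + c0 * t)) := by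
    rw [hc0]; ring
  rw [e2]
  have : dist (α t) (β t) ^ 2 = F t := rfl
  linarith

end Pool.Agent.H35.AL
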