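import Pool.Agent.H96.AL.Targets3

open Topology Set Filter Real

namespace Pool.Agent.H35.AL

open Pool.Agent.H96.AL

theorem dm : T_DM := by
  intro X _ m a p r hr h
  let F : X → (Fin m → ℝ) := fun y i => dist y (a i)
  have hF : LipschitzWith 1 F := by
    apply LipschitzWith.of_dist_le_mul
    intro x y
    rw [NNReal.coe_one, one_mul, dist_pi_le_iff dist_nonneg]
    intro i
    exact dist_dist_dist_le_left x y (a i)
  let V : Set (Fin m → ℝ) := {v | ∑ i, |v i - dist p (a i)| < r}
  have hVo : IsOpen V := by
    apply isOpen_lt _ continuous_const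
    fun_prop
  have hVr : V ⊆ Set.range F := by
    intro v hv
    obtain ⟨y, hy⟩ := h v hv
    exact ⟨y, funext hy⟩
  have hpV : F p ∈ V := by
    show ∑ i, |dist p (a i) - dist p (a i)| < r
    simpa using hr
  have h1 : (interior (Set.range F)).Nonempty :=
    ⟨F p, mem_interior.2 ⟨V, hVr, hVo, hpV⟩⟩
  have h2 := Real.dimH_of_nonempty_interior h1
  have h3 := hF.dimH_range_le
  rw [h2, Module.finrank_fin_fun] at h3
  exact h3

end Pool.Agent.H35.AL
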