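import Pool.Agent.H96.AL.Targets3

open Topology Set Filter Real

namespace Pool.Agent.H35.AL

open Pool.Agent.H96.AL

variable {X : Type} [MetricSpace X]

theorem pl_lower (m : ℕ) (a : Fin m → X) (p : X) (ρ : ℝ) (hρ : 0 < ρ)
    (h : ∀ v : Fin m → ℝ, ∑ i, |v i - dist p (a i)| < ρ / 2 / 4 →
      ∃ y ∈ Metric.ball p (ρ / 2), ∀ i, dist y (a i) = v i) (ε : ℝ) (hε : 0 < ε) :
    PackGe (Metric.ball p ρ) ε ((ρ / (9 * (m + 1))) ^ m * (1 / ε) ^ m) := by
  classical
  set K : ℕ := ⌊ρ / (9 * (m + 1) * ε)⌋₊ with hK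
  have hm0 : (0 : ℝ) ≤ m := Nat.cast_nonneg m
  have hKle : (K : ℝ) ≤ ρ / (9 * (m + 1) * ε) := Nat.floor_le (by positivity)
  have hKlt : ρ / (9 * (m + 1) * ε) < K + 1 := Nat.lt_floor_add_one _
  have hεK : ε * K ≤ ρ / (9 * (m + 1)) := by
    have h1 : ε * K ≤ ε * (ρ / (9 * (m + 1) * ε)) := mul_le_mul_of_nonneg_left hKle hε.le
    have h2 : ε * (ρ / (9 * (m + 1) * ε)) = ρ / (9 * (m + 1)) := by field_simp
    linarith
  have hex : ∀ k : Fin m → Fin (K + 1), ∃ y ∈ Metric.ball p (ρ / 2),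
      ∀ i, dist y (a i) = dist p (a i) + ε * (k i : ℝ) := by
    intro k
    apply h (fun i => dist p (a i) + ε * ((k i : ℕ) : ℝ))
    have h1 : ∀ i, |dist p (a i) + ε * ((k i : ℕ) : ℝ) - dist p (a i)| ≤ ρ / (9 * (m + 1)) := by
      intro i
      rw [add_sub_cancel_left, abs_of_nonneg (by positivity)]
      refine le_trans (mul_le_mul_of_nonneg_left ?_ hε.le) hεK
      exact_mod_cast Nat.lt_succ_iff.1 (k i).2
    refine lt_of_le_of_lt (Finset.sum_le_sum fun i _ => h1 i) ?_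
    rw [Finset.sum_const, Finset.card_univ, Fintype.card_fin, nsmul_eq_mul]
    have e : (m : ℝ) * (ρ / (9 * (m + 1))) = (ρ / 9) * (m / (m + 1)) := by field_simp
    rw [e]
    have h2 : (m : ℝ) / (m + 1) ≤ 1 := by
      rw [div_le_one (by positivity)]; linarith
    have h3 : (ρ / 9) * ((m : ℝ) / (m + 1)) ≤ ρ / 9 * 1 :=
      mul_le_mul_of_nonneg_left h2 (by positivity)
    linarith
  choose y hyb hya using hex
  have hsep : ∀ k k' : Fin m → Fin (K + 1), k ≠ k' → ε ≤ dist (y k) (y k') := by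
    intro k k' hkk
    obtain ⟨i, hi⟩ := Function.ne_iff.1 hkk
    have h1 : |dist (y k) (a i) - dist (y k') (a i)| ≤ dist (y k) (y k') := by
      have := dist_dist_dist_le_left (y k) (y k') (a i)
      rwa [Real.dist_eq] at this
    refine le_trans ?_ h1
    rw [hya, hya]
    have h2 : dist p (a i) + ε * ((k i : ℕ) : ℝ) - (dist p (a i) + ε * ((k' i : ℕ) : ℝ))
        = ε * (((k i : ℕ) : ℤ) - ((k' i : ℕ) : ℤ) : ℤ) := by push_cast; ring
    rw [h2, abs_mul, abs_of_pos hε]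
    have hne : (((k i : ℕ) : ℤ) - ((k' i : ℕ) : ℤ)) ≠ 0 := by
      intro h0
      apply hi
      apply Fin.ext
      have h4 := sub_eq_zero.1 h0
      exact_mod_cast h4
    have h3 : (1 : ℝ) ≤ |((((k i : ℕ) : ℤ) - ((k' i : ℕ) : ℤ) : ℤ) : ℝ)| := by
      rw [← Int.cast_abs]
      exact_mod_cast Int.one_le_abs hne
    have := mul_le_mul_of_nonneg_left h3 hε.le
    linarith
  have hinj : Function.Injective y := by
    intro k k' hk
    by_contra hne
    have := hsep k k' hne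
    rw [hk, dist_self] at this
    linarith
  refine ⟨Finset.univ.image y, ?_, ?_, ?_⟩
  · intro z hz
    rw [Finset.mem_coe, Finset.mem_image] at hz
    obtain ⟨k, _, rfl⟩ := hz
    exact Metric.ball_subset_ball (by linarith) (hyb k)
  · intro z hz w hw hzw
    rw [Finset.mem_image] at hz hw
    obtain ⟨k, _, rfl⟩ := hz
    obtain ⟨k', _, rfl⟩ := hw
    exact hsep k k' (fun h => hzw (by rw [h]))
  · rw [Finset.card_image_of_injective _ hinj, Finset.card_univ, Fintype.card_fun, Fintype.card_fin,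
      Fintype.card_fin, ← mul_pow]
    push_cast
    apply pow_le_pow_left₀ (by positivity)
    have e : ρ / (9 * ((m : ℝ) + 1)) * (1 / ε) = ρ / (9 * (m + 1) * ε) := by
      rw [div_mul_div_comm, mul_one]
    rw [e]
    exact hKlt.le

theorem pl_upper (m : ℕ) (a : Fin m → X) (p : X) (ρ c : ℝ) (hρ : 0 < ρ) (hc : 0 < c)
    (h : ∀ x ∈ Metric.ball p ρ, ∀ y ∈ Metric.ball p ρ, x ≠ y →
      ∃ i, c * dist x y ≤ |dist x (a i) - dist y (a i)|) (ε : ℝ) (hε : 0 < ε) (hε1 : ε ≤ 1) :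
    PackLe (Metric.ball p ρ) ε ((4 * ρ / c + 3) ^ m * (1 / ε) ^ m) := by
  classical
  intro s hs hsep
  set M : ℤ := ⌈2 * ρ / (c * ε)⌉ with hM
  have hM1 : 2 * ρ / (c * ε) ≤ M := Int.le_ceil _
  have hM2 : (M : ℝ) < 2 * ρ / (c * ε) + 1 := Int.ceil_lt_add_one _
  have hM0 : 0 ≤ M := Int.ceil_nonneg (by positivity)
  let G : X → (Fin m → ℤ) := fun x i => ⌊(dist x (a i) - dist p (a i)) / (c * ε / 2)⌋
  have hcε : 0 < c * ε / 2 := by positivity
  have hGm : ∀ x ∈ s, G x ∈ Fintype.piFinset (fun _ : Fin m => Finset.Icc (-M) M) := by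
    intro x hx
    rw [Fintype.mem_piFinset]
    intro i
    have hx' : dist x p < ρ := hs hx
    have h1 : |dist x (a i) - dist p (a i)| ≤ dist x p := by
      have := dist_dist_dist_le_left x p (a i)
      rwa [Real.dist_eq] at this
    have h2 := abs_le.1 (h1.trans hx'.le)
    have e : 2 * ρ / (c * ε) = ρ / (c * ε / 2) := by field_simp
    rw [Finset.mem_Icc]
    constructor
    · apply Int.le_floor.2
      push_cast
      have h3 : -ρ / (c * ε / 2) ≤ (dist x (a i) - dist p (a i)) / (c * ε / 2) :=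
        div_le_div_of_nonneg_right h2.1 hcε.le
      rw [neg_div, ← e] at h3
      linarith
    · have h3 : (dist x (a i) - dist p (a i)) / (c * ε / 2) ≤ ρ / (c * ε / 2) :=
        div_le_div_of_nonneg_right h2.2 hcε.le
      rw [← e] at h3
      have h4 : (G x i : ℝ) ≤ (dist x (a i) - dist p (a i)) / (c * ε / 2) := Int.floor_le _
      exact_mod_cast h4.trans (h3.trans hM1)
  have hGi : Set.InjOn G s := by
    intro x hx y hy hxy
    by_contra hne
    obtain ⟨i, hi⟩ := h x (hs hx) y (hs hy) hne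
    have hd : ε ≤ dist x y := hsep x hx y hy hne
    have h1 : ⌊(dist x (a i) - dist p (a i)) / (c * ε / 2)⌋
        = ⌊(dist y (a i) - dist p (a i)) / (c * ε / 2)⌋ := congrFun hxy i
    have h2 := Int.abs_sub_lt_one_of_floor_eq_floor h1
    rw [← sub_div, abs_div, abs_of_pos hcε, div_lt_one hcε] at h2
    have e : dist x (a i) - dist p (a i) - (dist y (a i) - dist p (a i))
        = dist x (a i) - dist y (a i) := by ring
    rw [e] at h2
    have h3 : c * ε ≤ c * dist x y := mul_le_mul_of_nonneg_left hd hc.le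
    linarith
  have hcard := Finset.card_le_card_of_injOn G hGm hGi
  rw [Fintype.card_piFinset, Finset.prod_const, Finset.card_univ, Fintype.card_fin,
    Int.card_Icc] at hcard
  have h5 : ((M + 1 - -M).toNat : ℝ) ≤ (4 * ρ / c + 3) * (1 / ε) := by
    have h6 : (((M + 1 - -M).toNat : ℤ) : ℝ) = ((M + 1 - -M : ℤ) : ℝ) := by
      rw [Int.toNat_of_nonneg (by omega)]
    rw [Int.cast_natCast] at h6
    rw [h6]
    push_cast
    have e1 : (4 * ρ / c + 3) * (1 / ε) = 2 * (2 * ρ / (c * ε)) + 3 * (1 / ε) := by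
      field_simp; ring
    have e2 : 1 ≤ 1 / ε := by
      rw [le_div_iff₀ hε]; linarith
    rw [e1]
    linarith
  calc (s.card : ℝ) ≤ (((M + 1 - -M).toNat ^ m : ℕ) : ℝ) := by exact_mod_cast hcard
    _ = ((M + 1 - -M).toNat : ℝ) ^ m := by push_cast; rfl
    _ ≤ ((4 * ρ / c + 3) * (1 / ε)) ^ m := pow_le_pow_left₀ (by positivity) h5 m
    _ = _ := mul_pow _ _ _

theorem pl : T_PL := by
  intro X _ m a p ρ c hρ hc h1 h2
  refine ⟨(ρ / (9 * (m + 1))) ^ m, (4 * ρ / c + 3) ^ m, by positivity, by positivity, ?_⟩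
  intro ε hε hε1
  exact ⟨pl_lower m a p ρ hρ (h2 p (ρ / 2) (by positivity)
    (Metric.closedBall_subset_ball (by linarith))) ε hε,
    pl_upper m a p ρ c hρ hc h1 ε hε hε1⟩

end Pool.Agent.H35.AL
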