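import Pool.Agent.H96.AL.Targets1

open Topology Set Filter Real

namespace Pool.Agent.H35.AL

open Pool.Agent.H96.AL

theorem hs_cosh (x : ℝ) : HasSum (fun n : ℕ => (x ^ 2) ^ n / ((2 * n).factorial : ℝ)) (cosh x) := by
  have h := Real.hasSum_cosh x
  simpa only [pow_mul] using h

theorem hs_sinh (x : ℝ) :
    HasSum (fun n : ℕ => x ^ (2 * n + 1) / ((2 * n + 1).factorial : ℝ)) (sinh x) :=
  Real.hasSum_sinh x

theorem sinh_le_mul_cosh {x : ℝ} (hx : 0 ≤ x) : sinh x ≤ x * cosh x := by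
  have h1 := hs_sinh x
  have h2 := (hs_cosh x).mul_left x
  refine hasSum_le (fun n => ?_) h1 h2
  have e1 : x * ((x ^ 2) ^ n / ((2 * n).factorial : ℝ)) = x ^ (2 * n + 1) / ((2 * n).factorial : ℝ) := by
    rw [← pow_mul, pow_succ]; ring
  rw [e1]
  apply div_le_div_of_nonneg_left (by positivity) (by positivity)
  exact_mod_cast Nat.factorial_le (by omega)

theorem sinh_smul_le {l s : ℝ} (hl : 0 ≤ l) (hs0 : 0 ≤ s) (hs1 : s ≤ 1) :
    sinh (s * l) ≤ s * sinh l := by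
  have h1 := hs_sinh (s * l)
  have h2 := (hs_sinh l).mul_left s
  refine hasSum_le (fun n => ?_) h1 h2
  rw [mul_pow, mul_div_assoc]
  apply mul_le_mul_of_nonneg_right _ (by positivity)
  rw [pow_succ]
  have : s ^ (2 * n) ≤ 1 := pow_le_one₀ hs0 hs1
  nlinarith

theorem cosh_convex_sq {a b t : ℝ} (ht0 : 0 ≤ t) (ht1 : t ≤ 1) :
    cosh (Real.sqrt ((1 - t) * a ^ 2 + t * b ^ 2)) ≤ (1 - t) * cosh a + t * cosh b := by
  have h1 := hs_cosh (Real.sqrt ((1 - t) * a ^ 2 + t * b ^ 2))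
  have hM : 0 ≤ (1 - t) * a ^ 2 + t * b ^ 2 := by
    have := sub_nonneg.2 ht1
    positivity
  rw [Real.sq_sqrt hM] at h1
  have h2 := ((hs_cosh a).mul_left (1 - t)).add ((hs_cosh b).mul_left t)
  refine hasSum_le (fun n => ?_) h1 h2
  have hc := (convexOn_pow n).2 (show a ^ 2 ∈ Ici (0 : ℝ) from sq_nonneg a)
    (show b ^ 2 ∈ Ici (0 : ℝ) from sq_nonneg b) (sub_nonneg.2 ht1) ht0 (by ring)
  simp only [smul_eq_mul] at hc
  have hf : (0 : ℝ) < ((2 * n).factorial : ℝ) := by positivity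
  rw [← mul_div_assoc, ← mul_div_assoc, ← add_div]
  exact div_le_div_of_nonneg_right hc hf.le

theorem cosh_sub_ge {M c : ℝ} (hc : 0 ≤ c) (hM : c ^ 2 ≤ M) :
    (M - c ^ 2) / 2 ≤ cosh (Real.sqrt M) - cosh c := by
  have hM0 : 0 ≤ M := le_trans (sq_nonneg c) hM
  have h1 := hs_cosh (Real.sqrt M)
  rw [Real.sq_sqrt hM0] at h1
  have h3 := h1.sub (hs_cosh c)
  have := le_hasSum h3 1 (fun j _ => by
    rw [← sub_div]
    apply div_nonneg _ (by positivity)
    exact sub_nonneg.2 (pow_le_pow_left₀ (sq_nonneg c) hM j))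
  have e : (M ^ 1 / ((2 * 1).factorial : ℝ) - (c ^ 2) ^ 1 / ((2 * 1).factorial : ℝ)) = (M - c ^ 2) / 2 := by
    norm_num [Nat.factorial]; ring
  rw [e] at this
  exact this

theorem sinh_add_sub {u v : ℝ} (hu : 0 ≤ u) (hv : 0 ≤ v) :
    sinh (u + v) - sinh u - sinh v ≤ u * v / 2 * sinh (u + v) := by
  obtain ⟨p, rfl⟩ : ∃ p, u = 2 * p := ⟨u / 2, by ring⟩
  obtain ⟨r, rfl⟩ : ∃ r, v = 2 * r := ⟨v / 2, by ring⟩
  have hp : 0 ≤ p := by linarith
  have hr : 0 ≤ r := by linarith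
  have e0 : 2 * p + 2 * r = 2 * (p + r) := by ring
  have e1 : sinh (2 * (p + r)) - sinh (2 * p) - sinh (2 * r) =
      4 * sinh p * sinh r * sinh (p + r) := by
    rw [sinh_two_mul, sinh_two_mul, sinh_two_mul, sinh_add, cosh_add]
    have h1 := cosh_sq p
    have h2 := cosh_sq r
    have : cosh p ^ 2 - sinh p ^ 2 = 1 := by rw [h1]; ring
    have : cosh r ^ 2 - sinh r ^ 2 = 1 := by rw [h2]; ring
    linear_combination (2 * sinh r * cosh r) * h1 + (2 * sinh p * cosh p) * h2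
  rw [e0, e1, sinh_two_mul]
  have hsp := sinh_le_mul_cosh hp
  have hsr := sinh_le_mul_cosh hr
  have hs0 : 0 ≤ sinh p := sinh_nonneg_iff.2 hp
  have hr0 : 0 ≤ sinh r := sinh_nonneg_iff.2 hr
  have hpr : 0 ≤ sinh (p + r) := sinh_nonneg_iff.2 (by linarith)
  have h3 : sinh p * sinh r ≤ (p * cosh p) * (r * cosh r) :=
    mul_le_mul hsp hsr hr0 (by have := cosh_pos p; positivity)
  have h4 : cosh p * cosh r ≤ cosh (p + r) := by
    rw [cosh_add]; nlinarith [mul_nonneg hs0 hr0]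
  have h5 : (p * cosh p) * (r * cosh r) ≤ p * r * cosh (p + r) := by
    have : (p * cosh p) * (r * cosh r) = p * r * (cosh p * cosh r) := by ring
    rw [this]
    exact mul_le_mul_of_nonneg_left h4 (by positivity)
  have h6 : sinh p * sinh r * sinh (p + r) ≤ p * r * cosh (p + r) * sinh (p + r) :=
    mul_le_mul_of_nonneg_right (h3.trans h5) hpr
  nlinarith

theorem qq_real {a b c l t ρ : ℝ} (ht0 : 0 ≤ t) (ht1 : t ≤ 1) (hl : 0 < l) (ha : 0 ≤ a)
    (hb : 0 ≤ b) (hc : 0 ≤ c) (haρ : a ≤ ρ) (hbρ : b ≤ ρ)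
    (h : sinh ((1 - t) * l) * cosh a + sinh (t * l) * cosh b ≤ sinh l * cosh c) :
    (1 - t) * a ^ 2 + t * b ^ 2 - cosh ρ * t * (1 - t) * l ^ 2 ≤ c ^ 2 := by
  by_contra hcon
  push Not at hcon
  set M := (1 - t) * a ^ 2 + t * b ^ 2 with hMd
  have ht1' : 0 ≤ 1 - t := sub_nonneg.2 ht1
  have hρ : 0 < cosh ρ := cosh_pos ρ
  have hK : 0 ≤ cosh ρ * t * (1 - t) * l ^ 2 := by positivity
  have hcM : c ^ 2 ≤ M := by linarith
  have h1 := cosh_convex_sq (a := a) (b := b) ht0 ht1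
  rw [← hMd] at h1
  have h2 := cosh_sub_ge hc hcM
  have hsl : 0 < sinh l := sinh_pos_iff.2 hl
  have k1 : sinh ((1 - t) * l) ≤ (1 - t) * sinh l := sinh_smul_le hl.le ht1' (by linarith)
  have k2 : sinh (t * l) ≤ t * sinh l := sinh_smul_le hl.le ht0 ht1
  have ca : cosh a ≤ cosh ρ := cosh_le_cosh.2 (by rw [abs_of_nonneg ha]; exact haρ.trans (le_abs_self _))
  have cb : cosh b ≤ cosh ρ := cosh_le_cosh.2 (by rw [abs_of_nonneg hb]; exact hbρ.trans (le_abs_self _))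
  have k3 := sinh_add_sub (u := (1 - t) * l) (v := t * l) (by positivity) (by positivity)
  have e1 : (1 - t) * l + t * l = l := by ring
  rw [e1] at k3
  have m1 : ((1 - t) * sinh l - sinh ((1 - t) * l)) * cosh a
      ≤ ((1 - t) * sinh l - sinh ((1 - t) * l)) * cosh ρ :=
    mul_le_mul_of_nonneg_left ca (by linarith)
  have m2 : (t * sinh l - sinh (t * l)) * cosh b ≤ (t * sinh l - sinh (t * l)) * cosh ρ :=
    mul_le_mul_of_nonneg_left cb (by linarith)
  have m3 : (sinh l - sinh ((1 - t) * l) - sinh (t * l)) * cosh ρ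
      ≤ ((1 - t) * l * (t * l) / 2 * sinh l) * cosh ρ :=
    mul_le_mul_of_nonneg_right k3 hρ.le
  have m4 : ((1 - t) * cosh a + t * cosh b - cosh c) * sinh l
      ≤ (cosh ρ * t * (1 - t) * l ^ 2 / 2) * sinh l := by
    have : ((1 - t) * l * (t * l) / 2 * sinh l) * cosh ρ
        = (cosh ρ * t * (1 - t) * l ^ 2 / 2) * sinh l := by ring
    rw [this] at m3
    nlinarith
  have m5 := le_of_mul_le_mul_right m4 hsl
  linarith

end Pool.Agent.H35.AL

namespace Pool.Agent.H35.AL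

open Pool.Agent.H96.AL

theorem qq : T_QQ := by
  intro X _ hCB q x y m t ρ ht hxm hmy hx hy
  rcases eq_or_lt_of_le (dist_nonneg : 0 ≤ dist x y) with hl | hl
  · have hxy : x = y := dist_eq_zero.1 hl.symm
    have hxm' : x = m := dist_eq_zero.1 (by rw [hxm, ← hl, mul_zero])
    subst hxy
    subst hxm'
    rw [← hl]
    nlinarith
  · have hb : H96.AL.Btw x m y := by
      show dist x m + dist m y = dist x y
      rw [hxm, hmy]; ring
    have h := hCB q x y m hb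
    rw [hxm, hmy] at h
    exact qq_real ht.1 ht.2 hl dist_nonneg dist_nonneg dist_nonneg hx hy h

end Pool.Agent.H35.AL
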